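import Pool.Agent.Lib.MP_28303a_al.TW.Lemmas
import Pool.Agent.Lib.MP_28303a_al.TW.Iface
import Pool.Agent.Lib.MP_28303a_al.NK.H50.Ext

/-! # COH: homogeneous rows of several degrees -/

set_option autoImplicit false
set_option linter.unusedSectionVars false

namespace Pool.Agent.NegK.TW.H30

universe u v w

open Matrix MonoidAlgebra Pool.Agent.NegK.H50

section fp

variable {A : Type u} [Ring A] {V : Type u} [AddCommGroup V] [Module A V]

theorem fp_sup (N₁ N₂ : Submodule A V) (hd : Disjoint N₁ N₂) (h₁ : ∃ n, HasFPRes A n N₁)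
    (h₂ : ∃ n, HasFPRes A n N₂) : ∃ n, HasFPRes A n ↥(N₁ ⊔ N₂) := by
  obtain ⟨n₁, h₁⟩ := h₁
  obtain ⟨n₂, h₂⟩ := h₂
  refine ⟨max n₁ n₂, ?_⟩
  have h3 : HasFPRes A (max n₁ n₂) (N₁ × N₂) :=
    Pool.Agent.NegK.H50.HasFPRes.horseshoe (LinearMap.inl A N₁ N₂) (LinearMap.snd A N₁ N₂)
      LinearMap.inl_injective LinearMap.snd_surjective (LinearMap.range_inl A N₁ N₂)
      (Pool.Agent.NegK.H50.HasFPRes.mono (le_max_left _ _) h₁)
      (Pool.Agent.NegK.H50.HasFPRes.mono (le_max_right _ _) h₂)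
  let f : (N₁ × N₂) →ₗ[A] ↥(N₁ ⊔ N₂) :=
    LinearMap.coprod (Submodule.inclusion le_sup_left) (Submodule.inclusion le_sup_right)
  have hf : ∀ x : N₁ × N₂, ((f x : ↥(N₁ ⊔ N₂)) : V) = (x.1 : V) + (x.2 : V) := fun x => rfl
  refine h3.congr (LinearEquiv.ofBijective f ⟨?_, ?_⟩)
  · refine (injective_iff_map_eq_zero f).2 fun x hx => ?_
    have h4 : (x.1 : V) + (x.2 : V) = 0 := by rw [← hf, hx]; rfl
    have h5 : (x.1 : V) = 0 := by
      refine (Submodule.disjoint_def.1 hd) _ x.1.2 ?_
      rw [eq_neg_of_add_eq_zero_left h4]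
      exact N₂.neg_mem x.2.2
    have h6 : (x.2 : V) = 0 := by rwa [h5, zero_add] at h4
    exact Prod.ext (Subtype.ext h5) (Subtype.ext h6)
  · rintro ⟨y, hy⟩
    obtain ⟨a, ha, b, hb, rfl⟩ := Submodule.mem_sup.1 hy
    exact ⟨(⟨a, ha⟩, ⟨b, hb⟩), Subtype.ext rfl⟩

end fp

section rows

variable {k : Type u} [Ring k] {Γ : Type u} [Group Γ] {D : Type u} [MulAction Γ D]
variable {J : Type}

/-- Scalar multiples, for an invariant set of degrees. -/
theorem spt_smul {dg : J → D} {S : Set D} (hS : ∀ (g : Γ), ∀ d ∈ S, g • d ∈ S)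
    {x : J → MonoidAlgebra k Γ} (hx : Spt dg S x) (r : MonoidAlgebra k Γ) : Spt dg S (r • x) := by
  intro j g hg
  obtain ⟨a, b, ha, hb, rfl⟩ := coeff_mul_ne_zero hg
  rw [mul_smul]
  exact hS _ _ (hx j b hb)

theorem spt_range {ι : Type} [Fintype ι] {dg : J → D} {S : Set D}
    (hS : ∀ (g : Γ), ∀ d ∈ S, g • d ∈ S) (z : Matrix ι J (MonoidAlgebra k Γ))
    (hz : ∀ i, Spt dg S (z i)) {y : J → MonoidAlgebra k Γ}
    (hy : y ∈ LinearMap.range z.vecMulLinear) : Spt dg S y := by
  obtain ⟨x, rfl⟩ := hy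
  rw [Matrix.vecMulLinear_apply, Matrix.vecMul_eq_sum]
  exact Spt.sum _ fun i _ => spt_smul hS (hz i) _

/-- One orbit of degrees. -/
theorem coh_single (hcoh : Coh1Statement.{u}) [Fintype J] {ι : Type} [Fintype ι] (dg : J → D)
    (z : Matrix ι J (MonoidAlgebra k Γ)) (c : ι → D) (hz : ∀ i, Spt dg {c i} (z i)) (c₀ : D)
    (h : ι → Γ) (hh : ∀ i, h i • c i = c₀)
    (hreg : RegCoh (MonoidAlgebra k (MulAction.stabilizer Γ c₀))) :
    ∃ n, HasFPRes (MonoidAlgebra k Γ) n (LinearMap.range z.vecMulLinear) := by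
  classical
  let z' : Matrix ι J (MonoidAlgebra k Γ) := fun i j => single (h i) 1 * z i j
  let g : J → Γ := fun j => if hj : ∃ γ : Γ, γ • c₀ = dg j then hj.choose else 1
  have hsupp : ∀ i j γ, (z' i j).coeff γ ≠ 0 → γ * g j ∈ MulAction.stabilizer Γ c₀ := by
    intro i j γ hγ
    have h1 : (z i j).coeff ((h i)⁻¹ * γ) ≠ 0 := by
      intro hc
      refine hγ ?_
      show (single (h i) 1 * z i j).coeff γ = 0
      rw [MonoidAlgebra.coeff_single_mul_apply, hc, mul_zero]
    have h2 : ((h i)⁻¹ * γ) • dg j = c i := hz i j _ h1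
    have h3 : γ • dg j = c₀ := by
      rw [← hh i, ← h2, ← mul_smul, mul_inv_cancel_left]
    have hj : ∃ γ : Γ, γ • c₀ = dg j := ⟨γ⁻¹, by rw [← h3, inv_smul_smul]⟩
    have h4 : g j • c₀ = dg j := by
      show (if hj : ∃ γ : Γ, γ • c₀ = dg j then hj.choose else 1) • c₀ = dg j
      rw [dif_pos hj]
      exact hj.choose_spec
    rw [MulAction.mem_stabilizer_iff, mul_smul, h4, h3]
  have hrange : LinearMap.range z'.vecMulLinear = LinearMap.range z.vecMulLinear := by
    apply le_antisymm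
    · rintro _ ⟨x, rfl⟩
      refine ⟨fun i => x i * single (h i) 1, ?_⟩
      rw [Matrix.vecMulLinear_apply, Matrix.vecMulLinear_apply]
      funext j
      simp only [Matrix.vecMul, dotProduct]
      exact Finset.sum_congr rfl fun i _ => mul_assoc _ _ _
    · rintro _ ⟨x, rfl⟩
      refine ⟨fun i => x i * single (h i)⁻¹ 1, ?_⟩
      rw [Matrix.vecMulLinear_apply, Matrix.vecMulLinear_apply]
      funext j
      simp only [Matrix.vecMul, dotProduct]
      refine Finset.sum_congr rfl fun i _ => ?_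
      show x i * single (h i)⁻¹ 1 * (single (h i) 1 * z i j) = x i * z i j
      rw [mul_assoc, ← mul_assoc (single (h i)⁻¹ 1), single_mul_single, inv_mul_cancel, mul_one,
        ← MonoidAlgebra.one_def, one_mul]
  rw [← hrange]
  exact hcoh k Γ _ hreg ι J z' g hsupp

end rows

theorem coh (hcoh : Coh1Statement.{u}) : CohStatement.{u} := by
  classical
  intro k Γ D _ _ _ J ι _ _ dg z c hz hreg
  induction hn : Fintype.card ι using Nat.strong_induction_on generalizing ι with
  | _ n ih =>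
    rcases isEmpty_or_nonempty ι with hι | hι
    · refine ⟨0, ?_⟩
      have h1 : LinearMap.range z.vecMulLinear = ⊥ := by
        rw [eq_bot_iff]
        rintro _ ⟨x, rfl⟩
        rw [Matrix.vecMulLinear_apply, Matrix.vecMul_eq_sum, Finset.univ_eq_empty,
          Finset.sum_empty]
        exact Submodule.zero_mem _
      rw [h1]
      exact ⟨inferInstance, inferInstance⟩
    · obtain ⟨i₀⟩ := hι
      let p : ι → Prop := fun i => ∃ γ : Γ, γ • c i = c i₀
      let z₁ : Matrix {i // p i} J (MonoidAlgebra k Γ) := fun i => z i.1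
      let z₂ : Matrix {i // ¬ p i} J (MonoidAlgebra k Γ) := fun i => z i.1
      have hlt : Fintype.card {i // ¬ p i} < n := by
        rw [← hn]
        refine Fintype.card_subtype_lt (x := i₀) ?_
        exact fun h => h ⟨1, one_smul _ _⟩
      have h₂ := ih _ hlt {i // ¬ p i} z₂ (fun i => c i.1) (fun i => hz i.1)
        (fun i => hreg i.1) rfl
      choose h hh using fun i : {i // p i} => i.2
      have h₁ := coh_single hcoh dg z₁ (fun i => c i.1) (fun i => hz i.1) (c i₀) h hh (hreg i₀)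
      have hsup : LinearMap.range z.vecMulLinear =
          LinearMap.range z₁.vecMulLinear ⊔ LinearMap.range z₂.vecMulLinear := by
        apply le_antisymm
        · rintro _ ⟨x, rfl⟩
          rw [Matrix.vecMulLinear_apply, Matrix.vecMul_eq_sum,
            ← Fintype.sum_subtype_add_sum_subtype p]
          refine Submodule.add_mem_sup ⟨fun i => x i.1, ?_⟩ ⟨fun i => x i.1, ?_⟩
          · rw [Matrix.vecMulLinear_apply, Matrix.vecMul_eq_sum]
          · rw [Matrix.vecMulLinear_apply, Matrix.vecMul_eq_sum]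
        · refine sup_le ?_ ?_
          · rintro _ ⟨x, rfl⟩
            rw [Matrix.vecMulLinear_apply, Matrix.vecMul_eq_sum]
            refine Submodule.sum_mem _ fun i _ => Submodule.smul_mem _ _ ?_
            refine ⟨Pi.single i.1 1, ?_⟩
            rw [Matrix.vecMulLinear_apply, Matrix.single_one_vecMul]
            rfl
          · rintro _ ⟨x, rfl⟩
            rw [Matrix.vecMulLinear_apply, Matrix.vecMul_eq_sum]
            refine Submodule.sum_mem _ fun i _ => Submodule.smul_mem _ _ ?_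
            refine ⟨Pi.single i.1 1, ?_⟩
            rw [Matrix.vecMulLinear_apply, Matrix.single_one_vecMul]
            rfl
      rw [hsup]
      refine fp_sup _ _ ?_ h₁ h₂
      rw [Submodule.disjoint_def]
      intro y hy₁ hy₂
      let S : Set D := {d | ∃ γ : Γ, γ • d = c i₀}
      have hS : ∀ (g : Γ), ∀ d ∈ S, g • d ∈ S := by
        rintro g d ⟨γ, hγ⟩
        exact ⟨γ * g⁻¹, by rw [mul_smul, inv_smul_smul, hγ]⟩
      have hS' : ∀ (g : Γ), ∀ d ∈ Sᶜ, g • d ∈ Sᶜ := by
        intro g d hd hgd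
        refine hd ?_
        have := hS g⁻¹ _ hgd
        rwa [inv_smul_smul] at this
      have s₁ : Spt dg S y := spt_range hS z₁ (fun i => (hz i.1).mono (by
        rintro _ rfl
        exact i.2)) hy₁
      have s₂ : Spt dg Sᶜ y := spt_range hS' z₂ (fun i => (hz i.1).mono (by
        rintro _ rfl
        exact i.2)) hy₂
      exact s₁.eq_zero s₂ fun d hd hc => hc hd

end Pool.Agent.NegK.TW.H30
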